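import Pool.Agent.helper4.QX.SpecF
import Pool.Agent.helper62.QX.FCV

set_option autoImplicit false

/-!
# Project QX (MP_07c750), row EFV: the theorem T1* (power savings for covers)

The structure is that of `Pool/Agent/helper62/QX/FCV.lean` (selection, strong convergence) and
`Pool/Agent/helper97/QX/EFB.lean` (the estimate).
-/

open scoped MatrixGroups ContDiff Topology UpperHalfPlane
open UpperHalfPlane MeasureTheory ProbabilityTheory Filter Set Polynomial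
open Pool.Agent.QU Pool.Agent.RP

namespace Pool.Agent.QX

/-- what is needed of the permutation representation -/
def EFV_P (Γ : Subgroup SL(2, ℝ)) (F : Set ℍ) (A u c : ℝ) (N : ℕ)
    (σ : Γ →* Equiv.Perm (Fin N)) : Prop :=
  ∃ (k : ℕ) (χ : Fin k → ℍ → ℝ), (k : ℝ) ≤ A * u ^ 4 ∧
    (∀ h : ℍ → ℝ, Lip1 Γ F h → ∃ c : Fin k → ℝ, (∀ i, |c i| ≤ A * u ^ 12) ∧
      ∀ z, |h z - ∑ i, c i * χ i z| ≤ A / u ^ 2) ∧
    ∀ i, Lip1 Γ F (χ i) ∧ ∀ (μ : ℝ) (φ : ℍ → Fin N → ℂ), IsNewEigenfunction σ μ φ → 0 ≤ μ →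
      μ ≤ (N : ℝ) ^ c → |∫ z in F, χ i z * ∑ j, ‖φ z j‖ ^ 2| ≤
        (u ^ 32)⁻¹ * ∫ z in F, ∑ j, ‖φ z j‖ ^ 2

theorem EFV_num {A u : ℝ} (hA : 1 ≤ A) (hu : 2 * A ^ 2 ≤ u) :
    A * u ^ 4 * (A * u ^ 12 * (u ^ 32)⁻¹) + A / u ^ 2 ≤ u⁻¹ := by
  have hu2 : 2 ≤ u := by nlinarith
  have hu0 : 0 < u := by linarith
  have h1 : A * u ^ 4 * (A * u ^ 12 * (u ^ 32)⁻¹) = A ^ 2 / u ^ 16 := by
    field_simp
  have h2 : A ^ 2 / u ^ 16 ≤ (1 / 2) * u⁻¹ := by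
    rw [div_le_iff₀ (by positivity)]
    have h3 : (1 / 2) * u⁻¹ * u ^ 16 = u / 2 * u ^ 14 := by field_simp
    rw [h3]
    have h4 : 1 ≤ u ^ 14 := one_le_pow₀ (by linarith)
    nlinarith
  have h5 : A / u ^ 2 ≤ (1 / 2) * u⁻¹ := by
    rw [div_le_iff₀ (by positivity)]
    have h3 : (1 / 2) * u⁻¹ * u ^ 2 = u / 2 := by field_simp
    rw [h3]
    nlinarith
  rw [h1]
  linarith

/-- the estimate for functions in `Lip1` -/
theorem EFV_core {Γ : Subgroup SL(2, ℝ)} (hΓ : SurfaceGroup Γ) {F : Set ℍ}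
    (hF : NiceDom Γ F) {A u : ℝ} (hA : 1 ≤ A) (hu : 2 * A ^ 2 ≤ u) (k : ℕ) (χ : Fin k → ℍ → ℝ)
    (hk : (k : ℝ) ≤ A * u ^ 4)
    (hap : ∀ h : ℍ → ℝ, Lip1 Γ F h → ∃ c : Fin k → ℝ, (∀ i, |c i| ≤ A * u ^ 12) ∧
      ∀ z, |h z - ∑ i, c i * χ i z| ≤ A / u ^ 2)
    (hχ : ∀ i, Lip1 Γ F (χ i)) (w : ℍ → ℝ) (isq : Inv Γ w) (hw0 : ∀ z, 0 ≤ w z)
    (hw : ∀ i, |∫ z in F, χ i z * w z| ≤ (u ^ 32)⁻¹ * ∫ z in F, w z)
    (h : ℍ → ℝ) (hh : Lip1 Γ F h) :
    |∫ z in F, h z * w z| ≤ u⁻¹ * ∫ z in F, w z := by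
  obtain ⟨c, hc, hz⟩ := hap h hh
  have j1 := FCV_int hΓ hF isq
  have jh := FCV_int hΓ hF (FCV_inv_mul hh.Inv isq)
  have jχ : ∀ i, IntegrableOn (fun z => χ i z * w z) F volume := fun i =>
    FCV_int hΓ hF (FCV_inv_mul (hχ i).Inv isq)
  have jc : ∀ i, IntegrableOn (fun z => c i * (χ i z * w z)) F volume := fun i => (jχ i).const_mul _
  have js : IntegrableOn (fun z => ∑ i, c i * (χ i z * w z)) F volume :=
    integrable_finset_sum _ fun i _ => jc i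
  set I : ℝ := ∫ z in F, w z with hI
  have hI0 : 0 ≤ I := integral_nonneg fun z => hw0 z
  have hu2 : 2 ≤ u := by nlinarith
  have hu0 : 0 < u := by linarith
  have e1 : (∫ z in F, h z * w z) = (∑ i, c i * ∫ z in F, χ i z * w z) +
      ∫ z in F, (h z * w z - ∑ i, c i * (χ i z * w z)) := by
    rw [integral_sub jh js, integral_finset_sum _ fun i _ => jc i]
    have : ∀ i, (∫ z in F, c i * (χ i z * w z)) = c i * ∫ z in F, χ i z * w z := fun i =>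
      integral_const_mul _ _
    rw [Finset.sum_congr rfl fun i _ => this i]
    ring
  have b2 : |∫ z in F, (h z * w z - ∑ i, c i * (χ i z * w z))| ≤ A / u ^ 2 * I := by
    rw [← Real.norm_eq_abs, hI, ← integral_const_mul]
    refine norm_integral_le_of_norm_le (j1.const_mul _) (Filter.Eventually.of_forall fun z => ?_)
    have h1 : h z * w z - ∑ i, c i * (χ i z * w z) =
        (h z - ∑ i, c i * χ i z) * w z := by
      rw [sub_mul, Finset.sum_mul]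
      congr 1
      refine Finset.sum_congr rfl fun i _ => ?_
      ring
    rw [h1, Real.norm_eq_abs, abs_mul, abs_of_nonneg (hw0 z)]
    exact mul_le_mul_of_nonneg_right (hz z) (hw0 z)
  have b1 : |∑ i, c i * ∫ z in F, χ i z * w z| ≤ A * u ^ 4 * (A * u ^ 12 * (u ^ 32)⁻¹) * I := by
    refine (Finset.abs_sum_le_sum_abs _ _).trans ?_
    have h1 : ∀ i ∈ Finset.univ, |c i * ∫ z in F, χ i z * w z| ≤ (A * u ^ 12) * ((u ^ 32)⁻¹ * I) := by
      intro i _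
      rw [abs_mul]
      exact mul_le_mul (hc i) (hw i) (abs_nonneg _) (by positivity)
    refine (Finset.sum_le_sum h1).trans ?_
    rw [Finset.sum_const, Finset.card_univ, Fintype.card_fin, nsmul_eq_mul]
    have h2 : (k : ℝ) * (A * u ^ 12 * ((u ^ 32)⁻¹ * I)) ≤ (A * u ^ 4) * (A * u ^ 12 * ((u ^ 32)⁻¹ * I)) :=
      mul_le_mul_of_nonneg_right hk (by positivity)
    refine h2.trans (le_of_eq ?_)
    ring
  rw [e1]
  refine (abs_add_le _ _).trans ((add_le_add b1 b2).trans ?_)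
  rw [← add_mul]
  exact mul_le_mul_of_nonneg_right (EFV_num hA hu) hI0

/-- the estimate for all `1`-Lipschitz functions -/
theorem EFV_core2 {Γ : Subgroup SL(2, ℝ)} (hΓ : SurfaceGroup Γ) {F : Set ℍ}
    (hF : NiceDom Γ F) {A u c : ℝ} (hA : 1 ≤ A) (hu : 2 * A ^ 2 ≤ u) {N : ℕ}
    {σ : Γ →* Equiv.Perm (Fin N)} (hP : EFV_P Γ F A u c N σ)
    (μ : ℝ) (φ : ℍ → Fin N → ℂ) (hφ : IsNewEigenfunction σ μ φ) (hμ0 : 0 ≤ μ)
    (hμ : μ ≤ (N : ℝ) ^ c) (h : ℍ → ℝ) (hinv : ∀ (γ : Γ) (z : ℍ), h (γ • z) = h z)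
    (hlip : ∀ z w : ℍ, |h z - h w| ≤ dist z w) :
    |(∫ z in F, h z * ∑ j, ‖φ z j‖ ^ 2) -
        (∫ z in F, h z) / (volume F).toReal * ∫ z in F, ∑ j, ‖φ z j‖ ^ 2| ≤
      u⁻¹ * ∫ z in F, ∑ j, ‖φ z j‖ ^ 2 := by
  obtain ⟨-, -, hpos, hfin, -, -⟩ := A_DOB Γ F hΓ hF
  haveI : IsFiniteMeasure (volume.restrict F : Measure ℍ) := ⟨by
    rw [Measure.restrict_apply_univ]; exact hfin⟩
  have hv : 0 < (volume F).toReal := ENNReal.toReal_pos hpos.ne' hfin.ne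
  set m : ℝ := (∫ z in F, h z) / (volume F).toReal with hm
  have hcont : Continuous h := by
    have h1 : LipschitzWith 1 h := LipschitzWith.of_dist_le_mul fun z w => by
      rw [Real.dist_eq, NNReal.coe_one, one_mul]
      exact hlip z w
    exact h1.continuous
  have hI : Inv Γ h := ⟨hcont, hinv⟩
  have hi := FCV_int hΓ hF hI
  have hconst : (∫ _z in F, m) = ∫ z in F, h z := by
    rw [integral_const, smul_eq_mul, measureReal_restrict_apply_univ, measureReal_def, hm]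
    field_simp
  have hmi : IntegrableOn (fun _ : ℍ => m) F volume := integrable_const m
  have hL : Lip1 Γ F (fun z => h z - m) := by
    refine ⟨fun γ z => by rw [hinv γ z], fun z w => ?_, ?_⟩
    · have e : h z - m - (h w - m) = h z - h w := by ring
      rw [e]
      exact hlip z w
    · rw [integral_sub hi hmi, hconst, sub_self]
  obtain ⟨k, χ, hk, hap, hχ⟩ := hP
  have isq := FCV_inv_sq hφ
  have k1 := EFV_core hΓ hF hA hu k χ hk hap (fun i => (hχ i).1) (fun z => ∑ j, ‖φ z j‖ ^ 2) isq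
    (fun z => by positivity) (fun i => (hχ i).2 μ φ hφ hμ0 hμ) _ hL
  have j1 := FCV_int hΓ hF isq
  have j2 := FCV_int hΓ hF (FCV_inv_mul hI isq)
  have j3 : IntegrableOn (fun z => m * ∑ j, ‖φ z j‖ ^ 2) F volume := j1.const_mul m
  have e1 : (∫ z in F, (h z - m) * ∑ j, ‖φ z j‖ ^ 2) =
      (∫ z in F, h z * ∑ j, ‖φ z j‖ ^ 2) - m * ∫ z in F, ∑ j, ‖φ z j‖ ^ 2 := by
    rw [← integral_const_mul, ← integral_sub j2 j3]
    refine integral_congr_ae (Filter.Eventually.of_forall fun z => ?_)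
    simp only
    ring
  rw [e1] at k1
  exact k1

/-- the random set -/
theorem EFV_step {Γ : Subgroup SL(2, ℝ)} {F : Set ℍ} {A c₁ t s : ℝ}
    (hs0 : 0 < s) (hsc : 32 * s ≤ c₁) (hst : 8 * s ≤ t) (hA : 1 ≤ A)
    (hB : ∀ ρ : ℝ, 0 < ρ → ρ ≤ 1 → ∃ (k : ℕ) (χ : Fin k → ℍ → ℝ), (k : ℝ) ≤ A / ρ ^ 2 ∧
      (∀ i, Lip1 Γ F (χ i)) ∧ ∀ h : ℍ → ℝ, Lip1 Γ F h → ∃ c : Fin k → ℝ, (∀ i, |c i| ≤ A / ρ ^ 6) ∧
        ∀ z, |h z - ∑ i, c i * χ i z| ≤ A * ρ) (θ : ℕ → (Γ →* F2)) (N₀ : ℕ)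
    (hN₀ : ∀ N : ℕ, N₀ ≤ N → ∀ h : ℍ → ℝ, Lip1 Γ F h →
      ∃ B : Finset (Fin 2 → Equiv.Perm (Fin N)), (B.card : ℝ) ≤ (N : ℝ) ^ (-t) * (N.factorial : ℝ) ^ 2 ∧
        ∀ σ, σ ∉ B → GoodP Γ F h ((N : ℝ) ^ (-c₁)) c₁ N ((FreeGroup.lift σ).comp (θ N)))
    (η : ℝ) (hη : 0 < η) :
    ∃ N₁ : ℕ, ∀ N : ℕ, N₁ ≤ N → ∃ B : Finset (Fin 2 → Equiv.Perm (Fin N)),
        (B.card : ℝ) ≤ η * (N.factorial : ℝ) ^ 2 ∧ ∀ σ, σ ∉ B →
          EFV_P Γ F A ((N : ℝ) ^ s) c₁ N ((FreeGroup.lift σ).comp (θ N)) := by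
  classical
  have hu32 : ∀ N : ℕ, 1 ≤ N → ((N : ℝ) ^ s) ^ 32 ≤ (N : ℝ) ^ c₁ := by
    intro N hN
    rw [← Real.rpow_natCast, ← Real.rpow_mul (Nat.cast_nonneg N)]
    refine Real.rpow_le_rpow_of_exponent_le (by exact_mod_cast hN) ?_
    push_cast
    linarith
  obtain ⟨N3, hN3⟩ := FCV_small (t := 4 * s) (by positivity) (show (0 : ℝ) < η / (2 * A) by positivity)
  refine ⟨max N₀ (max N3 1), fun N hN => ?_⟩
  have g1 : N₀ ≤ N := (le_max_left _ _).trans hN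
  have g2 : N3 ≤ N := ((le_max_left _ _).trans (le_max_right _ _)).trans hN
  have g3 : 1 ≤ N := ((le_max_right _ _).trans (le_max_right _ _)).trans hN
  have hN1 : (1 : ℝ) ≤ (N : ℝ) := by exact_mod_cast g3
  have hNpos : (0 : ℝ) < (N : ℝ) := by linarith
  have hu1 : 1 ≤ (N : ℝ) ^ s := Real.one_le_rpow hN1 hs0.le
  have hu32N := hu32 N g3
  have hu4 : ((N : ℝ) ^ s) ^ 4 * (N : ℝ) ^ (-t) ≤ (N : ℝ) ^ (-(4 * s)) := by
    rw [← Real.rpow_natCast, ← Real.rpow_mul (Nat.cast_nonneg N), ← Real.rpow_add hNpos]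
    refine Real.rpow_le_rpow_of_exponent_le hN1 ?_
    push_cast
    linarith
  set u : ℝ := (N : ℝ) ^ s with hudef
  have hu0 : 0 < u := by linarith
  have hρ1 : (u ^ 2)⁻¹ ≤ 1 := inv_le_one_of_one_le₀ (one_le_pow₀ hu1)
  obtain ⟨k, χ, hk, hχ, hap⟩ := hB ((u ^ 2)⁻¹) (by positivity) hρ1
  have hk' : (k : ℝ) ≤ A * u ^ 4 := by
    refine hk.trans (le_of_eq ?_)
    field_simp
  have h1 : ∀ i, ∃ B : Finset (Fin 2 → Equiv.Perm (Fin N)),
      (B.card : ℝ) ≤ (N : ℝ) ^ (-t) * (N.factorial : ℝ) ^ 2 ∧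
        ∀ σ, σ ∉ B → GoodP Γ F (χ i) ((N : ℝ) ^ (-c₁)) c₁ N ((FreeGroup.lift σ).comp (θ N)) :=
    fun i => hN₀ N g1 (χ i) (hχ i)
  have h2 : ∀ i, ∃ B : Finset (Fin 2 → Equiv.Perm (Fin N)),
      (B.card : ℝ) ≤ (N : ℝ) ^ (-t) * (N.factorial : ℝ) ^ 2 ∧
        ∀ σ, σ ∉ B → GoodP Γ F (fun z => -χ i z) ((N : ℝ) ^ (-c₁)) c₁ N
          ((FreeGroup.lift σ).comp (θ N)) :=
    fun i => hN₀ N g1 _ (hχ i).neg
  choose B1 b1 q1 using h1
  choose B2 b2 q2 using h2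
  have hfac : (0 : ℝ) < (N.factorial : ℝ) ^ 2 := by positivity
  refine ⟨Finset.univ.biUnion fun i => B1 i ∪ B2 i, ?_, ?_⟩
  · have h5 : ((Finset.univ.biUnion fun i => B1 i ∪ B2 i).card : ℝ) ≤
        ∑ i : Fin k, ((B1 i ∪ B2 i).card : ℝ) := by
      exact_mod_cast Finset.card_biUnion_le
    refine h5.trans ?_
    have h6 : ∀ i ∈ (Finset.univ : Finset (Fin k)), ((B1 i ∪ B2 i).card : ℝ) ≤
        2 * ((N : ℝ) ^ (-t) * (N.factorial : ℝ) ^ 2) := by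
      intro i _
      have h7 : ((B1 i ∪ B2 i).card : ℝ) ≤ ((B1 i).card : ℝ) + (B2 i).card := by
        exact_mod_cast Finset.card_union_le _ _
      linarith [b1 i, b2 i]
    refine (Finset.sum_le_sum h6).trans ?_
    rw [Finset.sum_const, Finset.card_univ, Fintype.card_fin, nsmul_eq_mul]
    have hNt : 0 ≤ (N : ℝ) ^ (-t) := Real.rpow_nonneg (Nat.cast_nonneg N) _
    have h8 : (k : ℝ) * (2 * ((N : ℝ) ^ (-t) * (N.factorial : ℝ) ^ 2)) ≤
        A * u ^ 4 * (2 * ((N : ℝ) ^ (-t) * (N.factorial : ℝ) ^ 2)) :=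
      mul_le_mul_of_nonneg_right hk' (by positivity)
    refine h8.trans ?_
    have h9 : A * u ^ 4 * (2 * ((N : ℝ) ^ (-t) * (N.factorial : ℝ) ^ 2)) =
        2 * A * (u ^ 4 * (N : ℝ) ^ (-t)) * (N.factorial : ℝ) ^ 2 := by ring
    rw [h9]
    refine mul_le_mul_of_nonneg_right ?_ hfac.le
    have h10 : u ^ 4 * (N : ℝ) ^ (-t) ≤ η / (2 * A) := hu4.trans (hN3 N g2)
    have hA2 : (0 : ℝ) < 2 * A := by linarith
    calc 2 * A * (u ^ 4 * (N : ℝ) ^ (-t)) ≤ 2 * A * (η / (2 * A)) :=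
          mul_le_mul_of_nonneg_left h10 hA2.le
      _ = η := by field_simp
  · intro x hx
    refine ⟨k, χ, hk', ?_, fun i => ⟨hχ i, ?_⟩⟩
    · intro h hh
      obtain ⟨cc, hc1, hc2⟩ := hap h hh
      refine ⟨cc, fun i => (hc1 i).trans (le_of_eq ?_), fun z => (hc2 z).trans (le_of_eq ?_)⟩
      · field_simp
      · field_simp
    · intro μ φ hφ hμ0 hμ
      have hx1 : x ∉ B1 i := fun hc => hx (Finset.mem_biUnion.2
        ⟨i, Finset.mem_univ i, Finset.mem_union_left _ hc⟩)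
      have hx2 : x ∉ B2 i := fun hc => hx (Finset.mem_biUnion.2
        ⟨i, Finset.mem_univ i, Finset.mem_union_right _ hc⟩)
      have k1 := q1 i x hx1 μ φ hμ0 hμ hφ
      have k2 := q2 i x hx2 μ φ hμ0 hμ hφ
      have hI0 : 0 ≤ ∫ z in F, ∑ j, ‖φ z j‖ ^ 2 := integral_nonneg fun z => by positivity
      have hNc : (N : ℝ) ^ (-c₁) ≤ (u ^ 32)⁻¹ := by
        rw [Real.rpow_neg (Nat.cast_nonneg N)]
        exact inv_anti₀ (by positivity) hu32N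
      have e2 : (∫ z in F, -χ i z * ∑ j, ‖φ z j‖ ^ 2) = -∫ z in F, χ i z * ∑ j, ‖φ z j‖ ^ 2 := by
        rw [← integral_neg]
        refine integral_congr_ae (Filter.Eventually.of_forall fun z => ?_)
        simp only
        ring
      rw [e2] at k2
      have h3 := mul_le_mul_of_nonneg_right hNc hI0
      rw [abs_le]
      constructor
      · linarith
      · exact k1.trans h3

theorem EFV (hEBF : EBF_stmt) (hEDN : EDN_stmt) (hEPT : EPT_stmt) : EFV_stmt := by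
  classical
  obtain ⟨c₁, t, hc₁, ht, hP0⟩ := hEPT
  obtain ⟨s, hs0, hsc, hst⟩ : ∃ s : ℝ, 0 < s ∧ 32 * s ≤ c₁ ∧ 8 * s ≤ t := by
    refine ⟨min (c₁ / 32) (t / 8), lt_min (by positivity) (by positivity), ?_, ?_⟩
    · have := min_le_left (c₁ / 32) (t / 8)
      linarith
    · have := min_le_right (c₁ / 32) (t / 8)
      linarith
  refine ⟨s, hs0, fun Γ hΓ g hg hne => ?_⟩
  obtain ⟨e⟩ := hne
  obtain ⟨θ, hP1, hP2⟩ := hP0 Γ g e hg hΓ
  obtain ⟨F, hF⟩ := A_DOM Γ hΓ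
  obtain ⟨A, hA, hB⟩ := hEBF Γ F hΓ hF
  obtain ⟨N₀, hN₀⟩ := hP1 F hF
  haveI : Countable Γ := (A_DOB Γ F hΓ hF).1
  -- the selection
  obtain ⟨x, hx⟩ := FCV_sel (ι := Unit ⊕ (List (Γ × ℚ × ℚ) × ℕ))
    (fun N => Fin 2 → Equiv.Perm (Fin N))
    (fun i N σ => Sum.elim
      (fun _ : Unit => EFV_P Γ F A ((N : ℝ) ^ s) c₁ N ((FreeGroup.lift σ).comp (θ N)))
      (fun p : List (Γ × ℚ × ℚ) × ℕ => FCV_El (DIA_E p.1) (1 / ((p.2 : ℝ) + 1))
        ((FreeGroup.lift σ).comp (θ N))) i) (by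
      intro i η hη
      simp only [FCV_card]
      rcases i with p | p
      · exact EFV_step hs0 hsc hst hA hB θ N₀ hN₀ η hη
      · exact FCV_stepB t ht θ hP2 _ _ η (by positivity) hη)
  -- strong convergence and transitivity
  have hSL : StrongLimPerm (fun n => n) (fun N => (FreeGroup.lift (x N)).comp (θ N)) :=
    FCV_dense _ fun l k => hx (Sum.inr (l, k))
  obtain ⟨sf, hsf⟩ := (A_SGF g hg).1
  obtain ⟨a, ε₀, hε₀, ha⟩ := A_TRA Γ (e.symm.toMonoidHom.comp sf)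
    (e.symm.injective.comp hsf)
  obtain ⟨Nt, hNt⟩ := Filter.eventually_atTop.1 (hSL a ε₀ hε₀)
  have htr : ∀ N, Nt ≤ N → ∀ i j, ∃ γ, ((FreeGroup.lift (x N)).comp (θ N)) γ i = j :=
    fun N hN => ha N _ (hNt N hN)
  have htau : ∀ N : ℕ, ∃ τ : Γ →* Equiv.Perm (Fin N), ∀ i j, ∃ γ, τ γ i = j := by
    intro N
    obtain ⟨τ, hτ⟩ := (A_SGF g hg).2 N
    refine ⟨τ.comp e.toMonoidHom, fun i j => ?_⟩
    obtain ⟨γ, hγ⟩ := hτ i j
    refine ⟨e.symm γ, ?_⟩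
    show τ (e (e.symm γ)) i = j
    rw [e.apply_symm_apply]
    exact hγ
  choose τ hτ using htau
  obtain ⟨σ, hσ⟩ : ∃ σ : ∀ n : ℕ, Γ →* Equiv.Perm (Fin n), ∀ N,
      (Nt ≤ N → σ N = (FreeGroup.lift (x N)).comp (θ N)) ∧ (¬ Nt ≤ N → σ N = τ N) := by
    refine ⟨fun N => if Nt ≤ N then (FreeGroup.lift (x N)).comp (θ N) else τ N, fun N => ?_⟩
    exact ⟨fun h => if_pos h, fun h => if_neg h⟩
  -- the estimate on `F`
  obtain ⟨N₁, hN₁⟩ := hx (Sum.inl ())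
  have htend : Tendsto (fun N : ℕ => (N : ℝ) ^ s) atTop atTop :=
    (tendsto_rpow_atTop hs0).comp tendsto_natCast_atTop_atTop
  obtain ⟨n1, hn1⟩ := Filter.eventually_atTop.1 (htend.eventually_ge_atTop (2 * A ^ 2))
  obtain ⟨n₀, m1, m2, m3, m4⟩ : ∃ n₀ : ℕ, N₁ ≤ n₀ ∧ n1 ≤ n₀ ∧ Nt ≤ n₀ ∧ 1 ≤ n₀ :=
    ⟨max (max N₁ n1) (max Nt 1), (le_max_left _ _).trans (le_max_left _ _),
      (le_max_right _ _).trans (le_max_left _ _), (le_max_left _ _).trans (le_max_right _ _),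
      (le_max_right _ _).trans (le_max_right _ _)⟩
  obtain ⟨-, -, hpos, hfin, hdom, -⟩ := A_DOB Γ F hΓ hF
  haveI : IsFiniteMeasure (volume.restrict F : Measure ℍ) := ⟨by
    rw [Measure.restrict_apply_univ]; exact hfin⟩
  have hv : 0 < (volume F).toReal := ENNReal.toReal_pos hpos.ne' hfin.ne
  have main : ∀ n : ℕ, n₀ ≤ n → ∀ (μ : ℝ) (φ : ℍ → Fin n → ℂ), 0 ≤ μ →
      μ ≤ (n : ℝ) ^ s → IsNewEigenfunction (σ n) μ φ → ∀ h : ℍ → ℝ,
        (∀ (γ : Γ) (z : ℍ), h (γ • z) = h z) → (∀ z w : ℍ, |h z - h w| ≤ dist z w) →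
        |(∫ z in F, h z * ∑ i, ‖φ z i‖ ^ 2) -
            (∫ z in F, h z) / (volume F).toReal * ∫ z in F, ∑ i, ‖φ z i‖ ^ 2| ≤
          ((n : ℝ) ^ s)⁻¹ * ∫ z in F, ∑ i, ‖φ z i‖ ^ 2 := by
    intro n hn μ φ hμ0 hμ hφ h hinv hlip
    rw [(hσ n).1 (m3.trans hn)] at hφ
    have hP : EFV_P Γ F A ((n : ℝ) ^ s) c₁ n ((FreeGroup.lift (x n)).comp (θ n)) :=
      hN₁ n (m1.trans hn)
    have hu : 2 * A ^ 2 ≤ (n : ℝ) ^ s := hn1 n (m2.trans hn)
    have hn1' : (1 : ℝ) ≤ (n : ℝ) := by exact_mod_cast m4.trans hn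
    refine EFV_core2 hΓ hF hA hu hP μ φ hφ hμ0 (hμ.trans ?_) h hinv hlip
    exact Real.rpow_le_rpow_of_exponent_le hn1' (by linarith)
  refine ⟨σ, ?_, ?_, ⟨n₀, ?_⟩, ?_⟩
  · intro N
    by_cases hN : Nt ≤ N
    · rw [(hσ N).1 hN]
      exact htr N hN
    · rw [(hσ N).2 hN]
      exact hτ N
  · intro b ε hε
    filter_upwards [hSL b ε hε, eventually_ge_atTop Nt] with N h1 hN
    rw [(hσ N).1 hN]
    exact h1
  · intro n hn μ φ hμ0 hμ hφ h hinv hlip F' hF'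
    obtain ⟨hvF, hint⟩ := hdom F' hF'
    have hcont : Continuous h := by
      have h1 : LipschitzWith 1 h := LipschitzWith.of_dist_le_mul fun z w => by
        rw [Real.dist_eq, NNReal.coe_one, one_mul]
        exact hlip z w
      exact h1.continuous
    have hI : Inv Γ h := ⟨hcont, hinv⟩
    have isq := FCV_inv_sq hφ
    rw [hint (fun z => h z * ∑ i, ‖φ z i‖ ^ 2) (FCV_inv_mul hI isq).2,
      hint (fun z => ∑ i, ‖φ z i‖ ^ 2) isq.2,
      hint h hinv, hvF, Real.rpow_neg (Nat.cast_nonneg n)]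
    exact main n hn μ φ hμ0 hμ hφ h hinv hlip
  · intro h hh ε hε
    have hI : Inv Γ h := hh
    obtain ⟨L, h', hL, hI', hlip', happ⟩ := hEDN Γ F h hΓ hF hI (ε / 4) (by positivity)
    have hL0 : 0 < L := by linarith
    have hev : ∀ᶠ n : ℕ in atTop, 4 * L / ε ≤ (n : ℝ) ^ s := htend.eventually_ge_atTop _
    refine (hev.and (Filter.eventually_ge_atTop n₀)).mono ?_
    rintro n ⟨hn2, hn⟩ μ φ hμ0 hμ hφ F' hF'
    obtain ⟨hvF, hint⟩ := hdom F' hF'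
    have isq := FCV_inv_sq hφ
    rw [hint (fun z => h z * ∑ i, ‖φ z i‖ ^ 2) (FCV_inv_mul hI isq).2,
      hint (fun z => ∑ i, ‖φ z i‖ ^ 2) isq.2,
      hint h hI.2, hvF]
    have key := main n hn μ φ hμ0 hμ hφ (fun z => h' z / L) (fun γ z => by simp only [hI'.2 γ z])
      (fun z w => by
        rw [← sub_div, abs_div, abs_of_pos hL0, div_le_iff₀ hL0, mul_comm]
        exact hlip' z w)
    have j0 := FCV_int hΓ hF hI
    have j0' := FCV_int hΓ hF hI'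
    have j1 := FCV_int hΓ hF isq
    have j2 := FCV_int hΓ hF (FCV_inv_mul hI isq)
    have j3 := FCV_int hΓ hF (FCV_inv_mul hI' isq)
    set I : ℝ := ∫ z in F, ∑ i, ‖φ z i‖ ^ 2 with hIdef
    have hI0 : 0 ≤ I := integral_nonneg fun z => by positivity
    have e3 : (∫ z in F, h' z / L * ∑ i, ‖φ z i‖ ^ 2) = L⁻¹ * ∫ z in F, h' z * ∑ i, ‖φ z i‖ ^ 2 := by
      rw [← integral_const_mul]
      refine integral_congr_ae (Filter.Eventually.of_forall fun z => ?_)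
      simp only
      ring
    have e4 : (∫ z in F, h' z / L) = L⁻¹ * ∫ z in F, h' z := by
      rw [← integral_const_mul]
      refine integral_congr_ae (Filter.Eventually.of_forall fun z => ?_)
      simp only
      ring
    rw [e3, e4] at key
    have key2 : |(∫ z in F, h' z * ∑ i, ‖φ z i‖ ^ 2) - (∫ z in F, h' z) / (volume F).toReal * I| ≤
        ε / 4 * I := by
      have h6 : (∫ z in F, h' z * ∑ i, ‖φ z i‖ ^ 2) - (∫ z in F, h' z) / (volume F).toReal * I =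
          L * (L⁻¹ * (∫ z in F, h' z * ∑ i, ‖φ z i‖ ^ 2) -
            L⁻¹ * (∫ z in F, h' z) / (volume F).toReal * I) := by
        field_simp
      rw [h6, abs_mul, abs_of_pos hL0]
      have h7 : L * ((n : ℝ) ^ s)⁻¹ ≤ ε / 4 := by
        have h8 : 0 < (n : ℝ) ^ s := lt_of_lt_of_le (by positivity) hn2
        rw [← div_eq_mul_inv, div_le_iff₀ h8]
        rw [div_le_iff₀ hε] at hn2
        nlinarith
      calc L * |L⁻¹ * (∫ z in F, h' z * ∑ i, ‖φ z i‖ ^ 2) -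
            L⁻¹ * (∫ z in F, h' z) / (volume F).toReal * I|
          ≤ L * (((n : ℝ) ^ s)⁻¹ * I) := mul_le_mul_of_nonneg_left key hL0.le
        _ = L * ((n : ℝ) ^ s)⁻¹ * I := by ring
        _ ≤ ε / 4 * I := mul_le_mul_of_nonneg_right h7 hI0
    -- the two differences
    have d1 : |(∫ z in F, h z * ∑ i, ‖φ z i‖ ^ 2) - ∫ z in F, h' z * ∑ i, ‖φ z i‖ ^ 2| ≤
        ε / 4 * I := by
      rw [← integral_sub j2 j3]
      refine (abs_integral_le_integral_abs).trans ?_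
      rw [hIdef, ← integral_const_mul]
      refine integral_mono ((j2.sub j3).abs) (j1.const_mul _) fun z => ?_
      show |h z * ∑ i, ‖φ z i‖ ^ 2 - h' z * ∑ i, ‖φ z i‖ ^ 2| ≤ ε / 4 * ∑ i, ‖φ z i‖ ^ 2
      rw [← sub_mul, abs_mul, abs_of_nonneg (show (0 : ℝ) ≤ ∑ i, ‖φ z i‖ ^ 2 by positivity)]
      exact mul_le_mul_of_nonneg_right (happ z) (by positivity)
    have d2 : |(∫ z in F, h z) / (volume F).toReal - (∫ z in F, h' z) / (volume F).toReal| ≤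
        ε / 4 := by
      rw [← sub_div, abs_div, abs_of_pos hv, div_le_iff₀ hv, ← integral_sub j0 j0']
      refine (abs_integral_le_integral_abs).trans ?_
      have : (∫ _z in F, ε / 4) = ε / 4 * (volume F).toReal := by
        rw [integral_const, smul_eq_mul, measureReal_restrict_apply_univ, measureReal_def, mul_comm]
      rw [← this]
      exact integral_mono ((j0.sub j0').abs) (integrable_const _) fun z => happ z
    have d3 : |((∫ z in F, h z) / (volume F).toReal - (∫ z in F, h' z) / (volume F).toReal) * I| ≤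
        ε / 4 * I := by
      rw [abs_mul, abs_of_nonneg hI0]
      exact mul_le_mul_of_nonneg_right d2 hI0
    rw [sub_mul] at d3
    rw [abs_le] at d1 d3 key2 ⊢
    constructor <;> nlinarith [d1.1, d1.2, d3.1, d3.2, key2.1, key2.2, mul_nonneg hε.le hI0]

end Pool.Agent.QX
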