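import Pool.Agent.helper33.QX.SpecA

/-!
# Project QX (MP_07c750), row qa:HAL: the horocyclic average is bounded on `L^2`
-/

set_option autoImplicit false

open scoped MatrixGroups ContDiff Topology UpperHalfPlane
open UpperHalfPlane MeasureTheory Filter Set
open Pool.Agent.QU

namespace Pool.Agent.QX

theorem HAL_vcont : Continuous (fun q : ℍ × ℝ => ((q.2 * q.1.im) +ᵥ q.1 : ℍ)) := by
  rw [UpperHalfPlane.isOpenEmbedding_coe.isInducing.continuous_iff]
  have h1 : ((fun z : ℍ => (z : ℂ)) ∘ fun q : ℍ × ℝ => ((q.2 * q.1.im) +ᵥ q.1 : ℍ)) =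
      fun q => ((q.2 * q.1.im : ℝ) : ℂ) + (q.1 : ℂ) := by
    funext q
    exact UpperHalfPlane.coe_vadd _ _
  rw [h1]
  have h2 : Continuous (fun q : ℍ × ℝ => q.1.im) := UpperHalfPlane.continuous_im.comp continuous_fst
  have h3 : Continuous (fun q : ℍ × ℝ => (q.1 : ℂ)) := UpperHalfPlane.continuous_coe.comp continuous_fst
  exact (Complex.continuous_ofReal.comp (continuous_snd.mul h2)).add h3

theorem HAL_ptc : Continuous pt := by
  rw [UpperHalfPlane.isOpenEmbedding_coe.isInducing.continuous_iff]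
  have h1 : ((fun z : ℍ => (z : ℂ)) ∘ pt) = fun p : ℝ × ℝ => (p.1 : ℂ) + (Real.exp p.2 : ℂ) * Complex.I := by
    funext p
    have h2 : ((pt p : ℍ) : ℂ) = ⟨p.1, Real.exp p.2⟩ := rfl
    show ((pt p : ℍ) : ℂ) = _
    rw [h2]
    exact Complex.mk_eq_add_mul_I _ _
  rw [h1]
  fun_prop

theorem HAL_shift (v : ℝ) (p : ℝ × ℝ) : ((v * (pt p).im) +ᵥ pt p : ℍ) = pt (p.1 + v * Real.exp p.2, p.2) := by
  apply UpperHalfPlane.ext
  rw [UpperHalfPlane.coe_vadd]
  have h1 : (pt p).im = Real.exp p.2 := rfl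
  have h2 : ((pt p : ℍ) : ℂ) = ⟨p.1, Real.exp p.2⟩ := rfl
  have h3 : ((pt (p.1 + v * Real.exp p.2, p.2) : ℍ) : ℂ) = ⟨p.1 + v * Real.exp p.2, Real.exp p.2⟩ := rfl
  rw [h1, h2, h3]
  apply Complex.ext
  · rw [Complex.add_re, Complex.ofReal_re]
    ring
  · rw [Complex.add_im, Complex.ofReal_im, zero_add]

/-- Cauchy-Schwarz with the weight `|θ|` -/
theorem HAL_cs (θ F : ℝ → ℝ) (hθ : Continuous θ) (hs : HasCompactSupport θ) (hF : Continuous F) :
    (∫ v, θ v * F v) ^ 2 ≤ (∫ v, |θ v|) * ∫ v, |θ v| * F v ^ 2 := by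
  have hs' : HasCompactSupport (fun v => |θ v|) := hs.comp_left (g := fun x : ℝ => |x|) abs_zero
  have i1 : Integrable (fun v => |θ v|) := hθ.abs.integrable_of_hasCompactSupport hs'
  have i2 : Integrable (fun v => |θ v| * |F v|) := (hθ.abs.mul hF.abs).integrable_of_hasCompactSupport hs'.mul_right
  have i3 : Integrable (fun v => |θ v| * F v ^ 2) := (hθ.abs.mul (hF.pow 2)).integrable_of_hasCompactSupport hs'.mul_right
  have h1 : ∀ x : ℝ, 0 ≤ (∫ v, |θ v|) * (x * x) + (-2 * ∫ v, |θ v| * |F v|) * x + ∫ v, |θ v| * F v ^ 2 := by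
    intro x
    have h2 : (∫ v, |θ v|) * (x * x) + (-2 * ∫ v, |θ v| * |F v|) * x + ∫ v, |θ v| * F v ^ 2 =
        ∫ v, |θ v| * (|F v| - x) ^ 2 := by
      have h3 : ∀ v, |θ v| * (|F v| - x) ^ 2 = (|θ v| * (x * x) + (-2 * x) * (|θ v| * |F v|)) + |θ v| * F v ^ 2 := by
        intro v
        rw [← sq_abs (F v)]
        ring
      have j1 : Integrable (fun v => |θ v| * (x * x)) := i1.mul_const _
      have j2 : Integrable (fun v => (-2 * x) * (|θ v| * |F v|)) := i2.const_mul _
      have j12 : Integrable (fun v => |θ v| * (x * x) + (-2 * x) * (|θ v| * |F v|)) := j1.add j2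
      rw [integral_congr_ae (Filter.Eventually.of_forall h3), integral_add j12 i3,
        integral_add j1 j2, integral_mul_const, integral_const_mul]
      ring
    rw [h2]
    exact integral_nonneg fun v => mul_nonneg (abs_nonneg _) (sq_nonneg _)
  have h4 := discrim_le_zero h1
  unfold discrim at h4
  have h5 : (∫ v, θ v * F v) ^ 2 ≤ (∫ v, |θ v| * |F v|) ^ 2 := by
    have h6 : |∫ v, θ v * F v| ≤ ∫ v, |θ v| * |F v| := by
      refine (abs_integral_le_integral_abs).trans (le_of_eq ?_)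
      refine integral_congr_ae (Filter.Eventually.of_forall fun v => ?_)
      exact abs_mul _ _
    rw [← sq_abs]
    exact pow_le_pow_left₀ (abs_nonneg _) h6 2
  nlinarith

theorem HAL (hCOO : COO_stmt) : HAL_stmt := by
  intro θ u hθ hu hus
  have hθc : Continuous θ := hθ.smooth.continuous
  have hs := hθ.supp
  obtain ⟨B, hB⟩ := hs.isCompact.isBounded.subset_closedBall 0
  have hB' : ∀ v, θ v ≠ 0 → v ∈ Metric.closedBall (0 : ℝ) B := fun v hv => hB (subset_tsupport θ hv)
  -- the average is continuous with compact support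
  have hav_eq : ∀ z : ℍ, hav θ u z = ∫ v in Metric.closedBall (0 : ℝ) B, θ v * u ((v * z.im) +ᵥ z) := by
    intro z
    unfold hav
    refine (setIntegral_eq_integral_of_forall_compl_eq_zero fun v hv => ?_).symm
    have h1 : θ v = 0 := by
      by_contra h
      exact hv (hB' v h)
    rw [h1, zero_mul]
  have hfc : Continuous (Function.uncurry fun (z : ℍ) (v : ℝ) => θ v * u ((v * z.im) +ᵥ z)) :=
    (hθc.comp continuous_snd).mul (hu.comp HAL_vcont)
  have hcont : Continuous (hav θ u) := by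
    have h1 : hav θ u = fun z : ℍ => ∫ v in Metric.closedBall (0 : ℝ) B, θ v * u ((v * z.im) +ᵥ z) := funext hav_eq
    rw [h1]
    exact continuous_parametric_integral_of_continuous hfc (isCompact_closedBall 0 B)
  have hcomp : HasCompactSupport (hav θ u) := by
    have hK : IsCompact ((fun q : ℍ × ℝ => ((q.2 * q.1.im) +ᵥ q.1 : ℍ)) '' (tsupport u ×ˢ Metric.closedBall (0 : ℝ) B)) :=
      (hus.isCompact.prod (isCompact_closedBall 0 B)).image HAL_vcont
    refine HasCompactSupport.intro hK ?_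
    intro z hz
    unfold hav
    have h1 : ∀ v, θ v * u ((v * z.im) +ᵥ z) = 0 := by
      intro v
      by_contra h
      have h2 : θ v ≠ 0 := left_ne_zero_of_mul h
      have h3 : u ((v * z.im) +ᵥ z) ≠ 0 := right_ne_zero_of_mul h
      apply hz
      refine ⟨(((v * z.im) +ᵥ z : ℍ), -v), ⟨subset_tsupport u h3, ?_⟩, ?_⟩
      · have h4 := hB' v h2
        rw [mem_closedBall_zero_iff] at h4 ⊢
        rw [norm_neg]
        exact h4
      · apply UpperHalfPlane.ext
        show (((-v * ((v * z.im) +ᵥ z : ℍ).im) +ᵥ ((v * z.im) +ᵥ z : ℍ) : ℍ) : ℂ) = (z : ℂ)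
        rw [UpperHalfPlane.coe_vadd, UpperHalfPlane.coe_vadd, UpperHalfPlane.vadd_im]
        push_cast
        ring
    simp [h1]
  -- the coordinates
  let U : ℝ × ℝ → ℝ := fun p => Real.exp (-p.2 / 2) * u (pt p)
  have hUc : Continuous U := by
    have h1 : Continuous (fun p : ℝ × ℝ => Real.exp (-p.2 / 2)) := by fun_prop
    exact h1.mul (hu.comp HAL_ptc)
  have hUs : HasCompactSupport U := by
    have hinv : ContinuousOn (fun z : ℍ => ((z.re, Real.log z.im) : ℝ × ℝ)) (tsupport u) := by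
      refine Continuous.continuousOn ?_
      refine UpperHalfPlane.continuous_re.prodMk ?_
      exact UpperHalfPlane.continuous_im.log fun z => z.im_pos.ne'
    refine HasCompactSupport.intro (hus.isCompact.image_of_continuousOn hinv) ?_
    intro p hp
    by_contra h
    have h1 : u (pt p) ≠ 0 := right_ne_zero_of_mul h
    apply hp
    refine ⟨pt p, subset_tsupport u h1, ?_⟩
    have h2 : (pt p).im = Real.exp p.2 := rfl
    have h3 : (pt p).re = p.1 := rfl
    show ((pt p).re, Real.log (pt p).im) = p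
    rw [h2, h3, Real.log_exp]
  have hsq : ∀ p : ℝ × ℝ, Real.exp (-p.2) = Real.exp (-p.2 / 2) ^ 2 := by
    intro p
    rw [← Real.exp_nat_mul]
    congr 1
    push_cast
    ring
  have hL : ∫ z : ℍ, hav θ u z ^ 2 = ∫ p : ℝ × ℝ, (∫ v, θ v * U (p.1 + v * Real.exp p.2, p.2)) ^ 2 := by
    have hs2 : HasCompactSupport (fun z => hav θ u z ^ 2) := hcomp.comp_left (g := fun x : ℝ => x ^ 2) (by norm_num)
    rw [hCOO (fun z => hav θ u z ^ 2) (hcont.pow 2) hs2]
    refine integral_congr_ae (Filter.Eventually.of_forall fun p => ?_)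
    beta_reduce
    rw [hsq, ← mul_pow]
    congr 1
    unfold hav
    rw [← integral_const_mul]
    refine integral_congr_ae (Filter.Eventually.of_forall fun v => ?_)
    beta_reduce
    rw [HAL_shift]
    show _ = θ v * (Real.exp (-p.2 / 2) * u (pt (p.1 + v * Real.exp p.2, p.2)))
    ring
  have hR : ∫ z : ℍ, u z ^ 2 = ∫ p : ℝ × ℝ, U p ^ 2 := by
    have hs2 : HasCompactSupport (fun z => u z ^ 2) := hus.comp_left (g := fun x : ℝ => x ^ 2) (by norm_num)
    rw [hCOO (fun z => u z ^ 2) (hu.pow 2) hs2]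
    refine integral_congr_ae (Filter.Eventually.of_forall fun p => ?_)
    beta_reduce
    rw [hsq, ← mul_pow]
  rw [hL, hR]
  -- the function of three variables
  have hH : Continuous (Function.uncurry fun (p : ℝ × ℝ) (v : ℝ) => |θ v| * U (p.1 + v * Real.exp p.2, p.2) ^ 2) := by
    have h1 : Continuous (fun q : (ℝ × ℝ) × ℝ => ((q.1.1 + q.2 * Real.exp q.1.2, q.1.2) : ℝ × ℝ)) := by fun_prop
    exact ((hθc.comp continuous_snd).abs).mul ((hUc.comp h1).pow 2)
  have hHs : HasCompactSupport (Function.uncurry fun (p : ℝ × ℝ) (v : ℝ) => |θ v| * U (p.1 + v * Real.exp p.2, p.2) ^ 2) := by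
    have h1 : Continuous (fun q : (ℝ × ℝ) × ℝ => (((q.1.1 - q.2 * Real.exp q.1.2, q.1.2), q.2) : (ℝ × ℝ) × ℝ)) := by fun_prop
    refine HasCompactSupport.intro ((hUs.isCompact.prod (isCompact_closedBall 0 B)).image h1) ?_
    rintro ⟨p, v⟩ hp
    by_contra h
    have h' : |θ v| * U (p.1 + v * Real.exp p.2, p.2) ^ 2 ≠ 0 := h
    have h2 : θ v ≠ 0 := abs_ne_zero.1 (left_ne_zero_of_mul h')
    have h3 : U (p.1 + v * Real.exp p.2, p.2) ≠ 0 := (pow_ne_zero_iff two_ne_zero).1 (right_ne_zero_of_mul h')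
    apply hp
    refine ⟨((p.1 + v * Real.exp p.2, p.2), v), ⟨subset_tsupport U h3, hB' v h2⟩, ?_⟩
    simp
  have hHi : Integrable (Function.uncurry fun (p : ℝ × ℝ) (v : ℝ) => |θ v| * U (p.1 + v * Real.exp p.2, p.2) ^ 2)
      ((volume : Measure (ℝ × ℝ)).prod (volume : Measure ℝ)) := hH.integrable_of_hasCompactSupport hHs
  have hswap := integral_integral_swap hHi
  have hU2 : Continuous (fun p : ℝ × ℝ => U p ^ 2) := hUc.pow 2
  have hU2s : HasCompactSupport (fun p : ℝ × ℝ => U p ^ 2) := hUs.comp_left (g := fun x : ℝ => x ^ 2) (by norm_num)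
  have hinner : ∀ v : ℝ, ∫ p : ℝ × ℝ, |θ v| * U (p.1 + v * Real.exp p.2, p.2) ^ 2 = |θ v| * ∫ p : ℝ × ℝ, U p ^ 2 := by
    intro v
    rw [integral_const_mul]
    congr 1
    have hc1 : Continuous (fun p : ℝ × ℝ => ((p.1 + v * Real.exp p.2, p.2) : ℝ × ℝ)) := by fun_prop
    have hc2 : Continuous (fun p : ℝ × ℝ => ((p.1 - v * Real.exp p.2, p.2) : ℝ × ℝ)) := by fun_prop
    have hs3 : HasCompactSupport (fun p : ℝ × ℝ => U (p.1 + v * Real.exp p.2, p.2) ^ 2) := by
      refine HasCompactSupport.intro (hU2s.isCompact.image hc2) ?_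
      intro p hp
      by_contra h
      apply hp
      refine ⟨(p.1 + v * Real.exp p.2, p.2), subset_tsupport (fun p : ℝ × ℝ => U p ^ 2) h, ?_⟩
      simp
    have i1 : Integrable (fun p : ℝ × ℝ => U (p.1 + v * Real.exp p.2, p.2) ^ 2)
        ((volume : Measure ℝ).prod (volume : Measure ℝ)) := (hU2.comp hc1).integrable_of_hasCompactSupport hs3
    have i2 : Integrable (fun p : ℝ × ℝ => U p ^ 2) ((volume : Measure ℝ).prod (volume : Measure ℝ)) :=
      hU2.integrable_of_hasCompactSupport hU2s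
    rw [Measure.volume_eq_prod, integral_prod_symm _ i1, integral_prod_symm _ i2]
    refine integral_congr_ae (Filter.Eventually.of_forall fun t => ?_)
    exact integral_add_right_eq_self (fun x : ℝ => U (x, t) ^ 2) (v * Real.exp t)
  have hswap' : ∫ p : ℝ × ℝ, ∫ v, |θ v| * U (p.1 + v * Real.exp p.2, p.2) ^ 2 = (∫ v, |θ v|) * ∫ p : ℝ × ℝ, U p ^ 2 := by
    rw [hswap, integral_congr_ae (Filter.Eventually.of_forall hinner), integral_mul_const]
  have hcs : ∀ p : ℝ × ℝ, (∫ v, θ v * U (p.1 + v * Real.exp p.2, p.2)) ^ 2 ≤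
      (∫ v, |θ v|) * ∫ v, |θ v| * U (p.1 + v * Real.exp p.2, p.2) ^ 2 := by
    intro p
    refine HAL_cs θ _ hθc hs ?_
    exact hUc.comp (by fun_prop)
  calc ∫ p : ℝ × ℝ, (∫ v, θ v * U (p.1 + v * Real.exp p.2, p.2)) ^ 2
      ≤ ∫ p : ℝ × ℝ, (∫ v, |θ v|) * ∫ v, |θ v| * U (p.1 + v * Real.exp p.2, p.2) ^ 2 := by
        refine integral_mono_of_nonneg (Filter.Eventually.of_forall fun p => sq_nonneg _) ?_
          (Filter.Eventually.of_forall hcs)
        exact (hHi.integral_prod_left).const_mul _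
    _ = (∫ v, |θ v|) * ((∫ v, |θ v|) * ∫ p : ℝ × ℝ, U p ^ 2) := by
        rw [integral_const_mul, hswap']
    _ = _ := by ring

end Pool.Agent.QX
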