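import Pool.Agent.helper33.QX.SpecA

/-!
# Project QX (MP_07c750), row qa:PVL: Parseval on `[-L, L]`
-/

set_option autoImplicit false

open scoped MatrixGroups ContDiff Topology UpperHalfPlane
open UpperHalfPlane MeasureTheory Filter Set
open Pool.Agent.QU

namespace Pool.Agent.QX

theorem PVL : PVL_stmt := by
  intro L F t hL hF
  have hab : -L < L := by linarith
  have hc : Continuous (fun x : ℝ => F (x, t)) := hF.comp (by fun_prop)
  have hcC : Continuous (fun x : ℝ => ((F (x, t) : ℝ) : ℂ)) := Complex.continuous_ofReal.comp hc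
  have hL2 : MemLp (fun x : ℝ => ((F (x, t) : ℝ) : ℂ)) 2 (volume.restrict (Set.Ioc (-L) L)) := by
    obtain ⟨C, hC⟩ := (isCompact_Icc (a := -L) (b := L)).exists_bound_of_continuousOn hcC.continuousOn
    refine MemLp.of_bound hcC.aestronglyMeasurable C ?_
    rw [ae_restrict_iff' measurableSet_Ioc]
    exact Filter.Eventually.of_forall fun x hx => hC x ⟨hx.1.le, hx.2⟩
  have h1 := hasSum_sq_fourierCoeffOn hab hL2
  have hLC : (L : ℂ) ≠ 0 := by exact_mod_cast hL.ne'
  have hcoef : ∀ n : ℤ, ‖fourierCoeffOn hab (fun x : ℝ => ((F (x, t) : ℝ) : ℂ)) n‖ ^ 2 = fcC L F n t ^ 2 + fcS L F n t ^ 2 := by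
    intro n
    have hpt : ∀ x : ℝ, (fourier (-n)) (x : AddCircle (L - -L)) • ((F (x, t) : ℝ) : ℂ) =
        ((F (x, t) * Real.cos (Real.pi * n / L * x) : ℝ) : ℂ) -
          Complex.I * ((F (x, t) * Real.sin (Real.pi * n / L * x) : ℝ) : ℂ) := by
      intro x
      rw [fourier_coe_apply, smul_eq_mul]
      have e1 : 2 * (Real.pi : ℂ) * Complex.I * ((-n : ℤ) : ℂ) * (x : ℂ) / ((L - -L : ℝ) : ℂ) =
          ((-(Real.pi * n / L * x) : ℝ) : ℂ) * Complex.I := by
        push_cast
        field_simp
        ring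
      rw [e1, Complex.exp_mul_I, ← Complex.ofReal_cos, ← Complex.ofReal_sin, Real.cos_neg, Real.sin_neg]
      push_cast
      ring
    have hi1 : IntervalIntegrable (fun x : ℝ => ((F (x, t) * Real.cos (Real.pi * n / L * x) : ℝ) : ℂ)) volume (-L) L := by
      refine Continuous.intervalIntegrable ?_ _ _
      exact Complex.continuous_ofReal.comp (hc.mul (by fun_prop))
    have hi2 : IntervalIntegrable (fun x : ℝ => Complex.I * ((F (x, t) * Real.sin (Real.pi * n / L * x) : ℝ) : ℂ))
        volume (-L) L := by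
      refine Continuous.intervalIntegrable ?_ _ _
      exact continuous_const.mul (Complex.continuous_ofReal.comp (hc.mul (by fun_prop)))
    have h2 : fourierCoeffOn hab (fun x : ℝ => ((F (x, t) : ℝ) : ℂ)) n = (fcC L F n t : ℂ) - Complex.I * (fcS L F n t : ℂ) := by
      rw [fourierCoeffOn_eq_integral, intervalIntegral.integral_congr (fun x _ => hpt x), intervalIntegral.integral_sub hi1 hi2,
        intervalIntegral.integral_const_mul, intervalIntegral.integral_ofReal, intervalIntegral.integral_ofReal]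
      unfold fcC fcS
      rw [Complex.real_smul]
      have e2 : ((1 / (L - -L) : ℝ) : ℂ) = (((2 * L)⁻¹ : ℝ) : ℂ) := by
        congr 1
        rw [one_div]
        congr 1
        ring
      rw [e2]
      push_cast
      ring
    rw [h2, ← Complex.normSq_eq_norm_sq, Complex.normSq_apply]
    simp only [Complex.sub_re, Complex.sub_im, Complex.mul_re, Complex.mul_im, Complex.I_re, Complex.I_im, Complex.ofReal_re,
      Complex.ofReal_im]
    ring
  have h3 : (fun n : ℤ => ‖fourierCoeffOn hab (fun x : ℝ => ((F (x, t) : ℝ) : ℂ)) n‖ ^ 2) =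
      fun n : ℤ => fcC L F n t ^ 2 + fcS L F n t ^ 2 := funext hcoef
  rw [h3] at h1
  have h4 : (L - -L)⁻¹ • ∫ x in (-L)..L, ‖((F (x, t) : ℝ) : ℂ)‖ ^ 2 = (2 * L)⁻¹ * ∫ x in (-L)..L, F (x, t) ^ 2 := by
    rw [smul_eq_mul]
    congr 1
    · congr 1
      ring
    · refine intervalIntegral.integral_congr fun x _ => ?_
      rw [Complex.norm_real, Real.norm_eq_abs, sq_abs]
  rw [h4] at h1
  exact h1

end Pool.Agent.QX
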