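import Pool.Agent.helper33.QX.SpecA

/-!
# Project QX (MP_07c750), row qa:SWP: Parseval integrated over `t`
-/

set_option autoImplicit false

open scoped MatrixGroups ContDiff Topology UpperHalfPlane
open UpperHalfPlane MeasureTheory Filter Set
open Pool.Agent.QU

namespace Pool.Agent.QX

/-- the partial integral of a continuous function with compact support -/
theorem SWP_par (L : ℝ) (G : ℝ × ℝ → ℝ) (hG : Continuous G) (hs : HasCompactSupport G) :
    Continuous (fun t : ℝ => ∫ x in (-L)..L, G (x, t)) ∧ HasCompactSupport (fun t : ℝ => ∫ x in (-L)..L, G (x, t)) := by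
  constructor
  · have h1 : Continuous (Function.uncurry fun (t x : ℝ) => G (x, t)) := hG.comp (by fun_prop)
    exact intervalIntegral.continuous_parametric_intervalIntegral_of_continuous' h1 (-L) L
  · refine HasCompactSupport.intro (K := Prod.snd '' tsupport G) (hs.isCompact.image continuous_snd) ?_
    intro t ht
    have h1 : ∀ x : ℝ, G (x, t) = 0 := by
      intro x
      by_contra h
      exact ht ⟨(x, t), subset_tsupport G h, rfl⟩
    simp [h1]

theorem SWP (hPVL : PVL_stmt) : SWP_stmt := by
  intro L F hL hF hs hx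
  have hcos : ∀ n : ℤ, Continuous (fun p : ℝ × ℝ => F p * Real.cos (Real.pi * n / L * p.1)) := fun n =>
    hF.mul (by fun_prop)
  have hsin : ∀ n : ℤ, Continuous (fun p : ℝ × ℝ => F p * Real.sin (Real.pi * n / L * p.1)) := fun n =>
    hF.mul (by fun_prop)
  have hcosS : ∀ n : ℤ, HasCompactSupport (fun p : ℝ × ℝ => F p * Real.cos (Real.pi * n / L * p.1)) := fun n =>
    hs.mul_right
  have hsinS : ∀ n : ℤ, HasCompactSupport (fun p : ℝ × ℝ => F p * Real.sin (Real.pi * n / L * p.1)) := fun n =>
    hs.mul_right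
  have hC1 : ∀ n : ℤ, Continuous (fcC L F n) := by
    intro n
    exact continuous_const.mul (SWP_par L _ (hcos n) (hcosS n)).1
  have hC2 : ∀ n : ℤ, HasCompactSupport (fcC L F n) := by
    intro n
    exact (SWP_par L _ (hcos n) (hcosS n)).2.mul_left
  have hS1 : ∀ n : ℤ, Continuous (fcS L F n) := by
    intro n
    exact continuous_const.mul (SWP_par L _ (hsin n) (hsinS n)).1
  have hS2 : ∀ n : ℤ, HasCompactSupport (fcS L F n) := by
    intro n
    exact (SWP_par L _ (hsin n) (hsinS n)).2.mul_left
  refine ⟨fun n => ⟨hC1 n, hC2 n, hS1 n, hS2 n⟩, ?_⟩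
  -- the sum
  have hF2 : Continuous (fun p : ℝ × ℝ => F p ^ 2) := hF.pow 2
  have hF2s : HasCompactSupport (fun p : ℝ × ℝ => F p ^ 2) := by
    have h1 : (fun p : ℝ × ℝ => F p ^ 2) = fun p => F p * F p := by
      funext p
      rw [sq]
    rw [h1]
    exact hs.mul_right
  obtain ⟨hq1, hq2⟩ := SWP_par L _ hF2 hF2s
  have hTint : Integrable (fun t : ℝ => (2 * L)⁻¹ * ∫ x in (-L)..L, F (x, t) ^ 2) := (hq1.integrable_of_hasCompactSupport hq2).const_mul _
  have haint : ∀ n : ℤ, Integrable (fun t : ℝ => fcC L F n t ^ 2 + fcS L F n t ^ 2) := by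
    intro n
    refine Integrable.add ?_ ?_
    · refine Continuous.integrable_of_hasCompactSupport ((hC1 n).pow 2) ?_
      have h1 : (fun t : ℝ => fcC L F n t ^ 2) = fun t => fcC L F n t * fcC L F n t := by
        funext t
        rw [sq]
      rw [h1]
      exact (hC2 n).mul_right
    · refine Continuous.integrable_of_hasCompactSupport ((hS1 n).pow 2) ?_
      have h1 : (fun t : ℝ => fcS L F n t ^ 2) = fun t => fcS L F n t * fcS L F n t := by
        funext t
        rw [sq]
      rw [h1]
      exact (hS2 n).mul_right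
  have hpos : ∀ (n : ℤ) (t : ℝ), 0 ≤ fcC L F n t ^ 2 + fcS L F n t ^ 2 := fun n t => by positivity
  have hP := fun t => hPVL L F t hL hF
  have hsum : Summable (fun n : ℤ => ∫ t, ‖fcC L F n t ^ 2 + fcS L F n t ^ 2‖) := by
    refine summable_of_sum_le (c := ∫ t, (2 * L)⁻¹ * ∫ x in (-L)..L, F (x, t) ^ 2)
      (fun n => integral_nonneg fun t => norm_nonneg _) ?_
    intro s
    have h1 : ∀ n : ℤ, ∫ t, ‖fcC L F n t ^ 2 + fcS L F n t ^ 2‖ = ∫ t, (fcC L F n t ^ 2 + fcS L F n t ^ 2) := by
      intro n
      refine integral_congr_ae (Filter.Eventually.of_forall fun t => ?_)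
      beta_reduce
      rw [Real.norm_eq_abs, abs_of_nonneg (hpos n t)]
    rw [Finset.sum_congr rfl fun n _ => h1 n, ← integral_finsetSum s fun n _ => haint n]
    refine integral_mono (integrable_finsetSum s fun n _ => haint n) hTint fun t => ?_
    beta_reduce
    rw [← (hP t).tsum_eq]
    exact (hP t).summable.sum_le_tsum s fun n _ => hpos n t
  have h2 := hasSum_integral_of_summable_integral_norm haint hsum
  have h3 : ∫ t, ∑' n : ℤ, (fcC L F n t ^ 2 + fcS L F n t ^ 2) = (2 * L)⁻¹ * ∫ p, F p ^ 2 := by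
    have h4 : ∀ t, ∑' n : ℤ, (fcC L F n t ^ 2 + fcS L F n t ^ 2) = (2 * L)⁻¹ * ∫ x, F (x, t) ^ 2 := by
      intro t
      rw [(hP t).tsum_eq]
      congr 1
      refine intervalIntegral.integral_eq_integral_of_support_subset ?_
      intro x hxx
      have h5 : F (x, t) ≠ 0 := by
        intro h0
        apply hxx
        show F (x, t) ^ 2 = 0
        rw [h0]
        norm_num
      have h6 := abs_lt.1 (hx x t h5)
      exact ⟨h6.1, h6.2.le⟩
    simp_rw [h4]
    rw [integral_const_mul]
    congr 1
    have h5 : Integrable (fun p : ℝ × ℝ => F p ^ 2) (Measure.prod volume volume) :=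
      hF2.integrable_of_hasCompactSupport hF2s
    have h6 := integral_prod_symm (fun p : ℝ × ℝ => F p ^ 2) h5
    rw [Measure.volume_eq_prod, h6]
  rw [h3] at h2
  exact h2

end Pool.Agent.QX
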