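import Pool.Agent.helper33.QX.SpecA
import Pool.Agent.helper62.QU.CA1
import Pool.Agent.helper42.QU.CA2

/-!
# Project QX (MP_07c750), row qa:UZE: the average along horocycles is close to `u`, and has small `X`-derivative
-/

set_option autoImplicit false

open scoped MatrixGroups ContDiff Topology UpperHalfPlane
open UpperHalfPlane MeasureTheory Filter Set
open Pool.Agent.QU

namespace Pool.Agent.QX

/-- smooth with compact support -/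
def UZE_S (u : ℍ → ℝ) : Prop := CD ∞ u ∧ HasCompactSupport u

theorem UZE_nat (u : ℍ → ℝ) : CD ∞ u ↔ ∀ n : ℕ, CD (n : WithTop ℕ∞) u := contDiffOn_infty

theorem UZE_S.of_nat {u : ℍ → ℝ} (hu : CD ∞ u) (n : ℕ) : CD (n : WithTop ℕ∞) u := (UZE_nat u).1 hu n

theorem UZE_S.one {u : ℍ → ℝ} (hu : UZE_S u) : CD 1 u := by
  have := UZE_S.of_nat hu.1 1
  simpa using this

theorem UZE_S.two {u : ℍ → ℝ} (hu : UZE_S u) : CD 2 u := UZE_S.of_nat hu.1 2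

theorem UZE_S.cont {u : ℍ → ℝ} (hu : UZE_S u) : Continuous u := by
  obtain ⟨hc0, -⟩ := CA1 ℝ
  refine (hc0 u).1 ?_
  have := UZE_S.of_nat hu.1 0
  simpa using this

theorem UZE_S.add {u v : ℍ → ℝ} (hu : UZE_S u) (hv : UZE_S v) : UZE_S (fun z => u z + v z) := by
  obtain ⟨-, -, hadd, -⟩ := CA1 ℝ
  exact ⟨hadd u v ∞ hu.1 hv.1, hu.2.add hv.2⟩

theorem UZE_S.cmul {u : ℍ → ℝ} (hu : UZE_S u) (c : ℝ) : UZE_S (fun z => c * u z) := by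
  obtain ⟨-, -, -, hmul, -, -, -, -, hcd, -⟩ := CA1 ℝ
  exact ⟨hmul (fun _ => c) u ∞ (hcd c ∞) hu.1, hu.2.mul_left⟩

theorem UZE_S.dX {u : ℍ → ℝ} (hu : UZE_S u) : UZE_S (dX u) := by
  obtain ⟨-, -, -, -, hder, -, -, -, -, hts⟩ := CA1 ℝ
  refine ⟨(UZE_nat _).2 fun n => (hder u n ?_).1, hu.2.of_isClosed_subset (isClosed_tsupport _) (hts u).1⟩
  have := UZE_S.of_nat hu.1 (n + 1)
  exact_mod_cast this

theorem UZE_S.dY {u : ℍ → ℝ} (hu : UZE_S u) : UZE_S (dY u) := by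
  obtain ⟨-, -, -, -, hder, -, -, -, -, hts⟩ := CA1 ℝ
  refine ⟨(UZE_nat _).2 fun n => (hder u n ?_).2, hu.2.of_isClosed_subset (isClosed_tsupport _) (hts u).2⟩
  have := UZE_S.of_nat hu.1 (n + 1)
  exact_mod_cast this

theorem UZE_dDeq (u : ℍ → ℝ) : dD u = fun z => dY u z + (-(1 / 2)) * u z := by
  funext z
  unfold dD
  ring

theorem UZE_S.dD {u : ℍ → ℝ} (hu : UZE_S u) : UZE_S (dD u) := by
  rw [UZE_dDeq]
  exact hu.dY.add (hu.cmul _)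

theorem UZE_dX_lin {u v : ℍ → ℝ} (hu : UZE_S u) (hv : UZE_S v) (a b : ℝ) (z : ℍ) :
    dX (fun z => a * u z + b * v z) z = a * dX u z + b * dX v z := by
  obtain ⟨-, -, -, -, -, dadd, dmul, dconst, hcd, -⟩ := CA1 ℝ
  rw [(dadd (fun z => a * u z) (fun z => b * v z) (hu.cmul a).one (hv.cmul b).one z).1]
  have h1 := (dmul (fun _ => a) u (hcd a 1) hu.one z).1
  have h2 := (dmul (fun _ => b) v (hcd b 1) hv.one z).1
  simp only [smul_eq_mul] at h1 h2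
  rw [h1, h2, (dconst a z).1, (dconst b z).1]
  ring

theorem UZE_dY_lin {u v : ℍ → ℝ} (hu : UZE_S u) (hv : UZE_S v) (a b : ℝ) (z : ℍ) :
    dY (fun z => a * u z + b * v z) z = a * dY u z + b * dY v z := by
  obtain ⟨-, -, -, -, -, dadd, dmul, dconst, hcd, -⟩ := CA1 ℝ
  rw [(dadd (fun z => a * u z) (fun z => b * v z) (hu.cmul a).one (hv.cmul b).one z).2]
  have h1 := (dmul (fun _ => a) u (hcd a 1) hu.one z).2
  have h2 := (dmul (fun _ => b) v (hcd b 1) hv.one z).2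
  simp only [smul_eq_mul] at h1 h2
  rw [h1, h2, (dconst a z).2, (dconst b z).2]
  ring

theorem UZE_dD_lin {u v : ℍ → ℝ} (hu : UZE_S u) (hv : UZE_S v) (a b : ℝ) (z : ℍ) :
    dD (fun z => a * u z + b * v z) z = a * dD u z + b * dD v z := by
  unfold dD
  rw [UZE_dY_lin hu hv]
  ring

theorem UZE_vc (z : ℍ) : Continuous (fun v : ℝ => ((v * z.im) +ᵥ z : ℍ)) := by
  rw [UpperHalfPlane.isOpenEmbedding_coe.isInducing.continuous_iff]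
  have h1 : ((fun z : ℍ => (z : ℂ)) ∘ fun v : ℝ => ((v * z.im) +ᵥ z : ℍ)) =
      fun v => ((v * z.im : ℝ) : ℂ) + (z : ℂ) := by
    funext v
    exact UpperHalfPlane.coe_vadd _ _
  rw [h1]
  fun_prop

theorem UZE_int {θ : ℝ → ℝ} (hθ : TK θ) {u : ℍ → ℝ} (hu : Continuous u) (z : ℍ) :
    Integrable (fun v : ℝ => θ v * u ((v * z.im) +ᵥ z)) :=
  (hθ.smooth.continuous.mul (hu.comp (UZE_vc z))).integrable_of_hasCompactSupport hθ.supp.mul_right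

theorem UZE_hlin {θ : ℝ → ℝ} (hθ : TK θ) {u v : ℍ → ℝ} (hu : Continuous u) (hv : Continuous v) (a b : ℝ) (z : ℍ) :
    hav θ (fun z => a * u z + b * v z) z = a * hav θ u z + b * hav θ v z := by
  unfold hav
  rw [← integral_const_mul, ← integral_const_mul, ← integral_add ((UZE_int hθ hu z).const_mul a)
    ((UZE_int hθ hv z).const_mul b)]
  refine integral_congr_ae (Filter.Eventually.of_forall fun t => ?_)
  beta_reduce
  ring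

theorem UZE_hD (hHV2 : HV2_stmt) {θ : ℝ → ℝ} (hθ : TK θ) {u : ℍ → ℝ} (hu : UZE_S u) (z : ℍ) :
    dD (hav θ u) z = 1 * hav θ (dD u) z + (-1) * hav (eu θ) u z := by
  have h1 := (hHV2 θ u hθ hu.1 z).2.2
  have h2 : hav θ (dD u) z = hav θ (dY u) z - hav θ u z / 2 := by
    have h3 : dD u = fun z => 1 * dY u z + (-(1 / 2)) * u z := by
      funext z
      unfold dD
      ring
    rw [h3, UZE_hlin hθ hu.dY.cont hu.cont]
    ring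
  have h4 : dD (hav θ u) z = dY (hav θ u) z - hav θ u z / 2 := rfl
  rw [h4, h1, h2]
  ring

theorem UZE_hX (hHV2 : HV2_stmt) {θ : ℝ → ℝ} (hθ : TK θ) {u : ℍ → ℝ} (hu : UZE_S u) (z : ℍ) :
    dX (hav θ u) z = -hav (deriv θ) u z := (hHV2 θ u hθ hu.1 z).2.1

theorem UZE_hX2 (hHV2 : HV2_stmt) {θ : ℝ → ℝ} (hθ : TK θ) {u : ℍ → ℝ} (hu : UZE_S u) (z : ℍ) :
    hav θ (dX u) z = -hav (deriv θ) u z := by
  rw [← UZE_hX hHV2 hθ hu z]
  exact ((hHV2 θ u hθ hu.1 z).1).symm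

theorem UZE_sqint {u : ℍ → ℝ} (hu : UZE_S u) : Integrable (fun z => u z ^ 2) := by
  have h1 : HasCompactSupport (fun z => u z ^ 2) := hu.2.comp_left (g := fun x : ℝ => x ^ 2) (by norm_num)
  have h2 : Continuous (fun z => u z ^ 2) := hu.cont.pow 2
  exact h2.integrable_of_hasCompactSupport h1

theorem UZE_N2 {a b : ℍ → ℝ} (ha : UZE_S a) (hb : UZE_S b) (c d : ℝ) :
    (∫ z : ℍ, (c * a z + d * b z) ^ 2) ≤ 2 * c ^ 2 * (∫ z : ℍ, a z ^ 2) + 2 * d ^ 2 * ∫ z : ℍ, b z ^ 2 := by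
  rw [← integral_const_mul, ← integral_const_mul, ← integral_add ((UZE_sqint ha).const_mul _)
    ((UZE_sqint hb).const_mul _)]
  refine integral_mono (UZE_sqint ((ha.cmul c).add (hb.cmul d))) (((UZE_sqint ha).const_mul _).add
    ((UZE_sqint hb).const_mul _)) fun z => ?_
  show (c * a z + d * b z) ^ 2 ≤ 2 * c ^ 2 * a z ^ 2 + 2 * d ^ 2 * b z ^ 2
  nlinarith [sq_nonneg (c * a z - d * b z)]

theorem UZE (hFEN : FEN_stmt) (hHV0 : HV0_stmt) (hHV1 : HV1_stmt) (hHV2 : HV2_stmt) (hHAL : HAL_stmt) : UZE_stmt := by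
  intro ψ hψ hψ1
  obtain ⟨hψ', hθ₁, iψ', iθ₁⟩ := hHV0 ψ hψ
  obtain ⟨hψ'', -, iψ'', -⟩ := hHV0 (deriv ψ) hψ'
  obtain ⟨hθ₁', hθ₂, iθ₁', iθ₂⟩ := hHV0 (eu ψ) hθ₁
  obtain ⟨C1, hC1, F1⟩ := hFEN (deriv ψ) hψ'
  obtain ⟨C2, hC2, F2⟩ := hFEN (deriv (deriv ψ)) hψ''
  obtain ⟨C3, hC3, F3⟩ := hFEN (eu ψ) hθ₁
  obtain ⟨C4, hC4, F4⟩ := hFEN (deriv (eu ψ)) hθ₁'
  obtain ⟨C5, hC5, F5⟩ := hFEN (eu (eu ψ)) hθ₂
  obtain ⟨C6, hC6, F6⟩ := hFEN ψ hψ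
  obtain ⟨M, hM⟩ : ∃ M : ℝ, M = (∫ v, |ψ v|) ^ 2 := ⟨_, rfl⟩
  obtain ⟨M₁, hM₁⟩ : ∃ M : ℝ, M = (∫ v, |eu ψ v|) ^ 2 := ⟨_, rfl⟩
  have hM0 : 0 ≤ M := by rw [hM]; exact sq_nonneg _
  have hM₁0 : 0 ≤ M₁ := by rw [hM₁]; exact sq_nonneg _
  refine ⟨C6 + 3 * C1 + 4 * C2 + 16 * C3 + 2 * C4 + 4 * C5 + 7 * M + 2 * M₁, by positivity, ?_⟩
  intro u μ hμ hu hus R ND Nf v
  have hS : UZE_S u := ⟨hu, hus⟩
  have hR1 : 1 ≤ R := by
    show 1 ≤ μ - 1 / 4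
    linarith
  have hlog : 0 ≤ Real.log R := Real.log_nonneg hR1
  obtain ⟨κ, hκ⟩ : ∃ κ : ℝ, κ = (1 + Real.log R) / R := ⟨_, rfl⟩
  have hκ0 : 0 ≤ κ := by rw [hκ]; positivity
  have hκ1 : κ ≤ 1 := by
    rw [hκ, div_le_one (by linarith)]
    have := Real.log_le_sub_one_of_pos (show 0 < R by linarith)
    linarith
  obtain ⟨A, hA⟩ : ∃ A : ℝ, A = ND * Nf := ⟨_, rfl⟩
  have hND0 : 0 ≤ ND := Real.sqrt_nonneg _
  have hNf0 : 0 ≤ Nf := Real.sqrt_nonneg _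
  have hA0 : 0 ≤ A := by rw [hA]; positivity
  have hκA : κ * A ≤ A := mul_le_of_le_one_left hA0 hκ1
  have hκA0 : 0 ≤ κ * A := mul_nonneg hκ0 hA0
  -- the functions
  have hav_S : ∀ θ : ℝ → ℝ, TK θ → ∀ w : ℍ → ℝ, UZE_S w → UZE_S (hav θ w) := by
    intro θ hθ w hw
    exact ⟨(hHV1 θ w hθ).2 hw.1, ((hHV1 θ w hθ).1 hw.cont hw.2).2⟩
  have hvS : UZE_S v := hav_S ψ hψ u hS
  obtain ⟨f, hf⟩ : ∃ f : ℍ → ℝ, f = fun z => lap u z - μ * u z := ⟨_, rfl⟩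
  have hXX : ∀ z, lap u z = -dX (dX u) z - dY (dY u) z + dY u z := fun z => ((CA2 CA1) ℝ u hS.two z).2
  have hfS : UZE_S f := by
    have h1 : f = fun z => ((-1) * dX (dX u) z + (-1) * dY (dY u) z) + (dY u z + (-μ) * u z) := by
      rw [hf]
      funext z
      rw [hXX]
      ring
    rw [h1]
    exact ((hS.dX.dX.cmul _).add (hS.dY.dY.cmul _)).add (hS.dY.add (hS.cmul _))
  have hDD : dD (dD u) = fun z => 1 * ((-1) * dX (dX u) z + (-1) * f z) + (-R) * u z := by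
    funext z
    have h1 : dD (dD u) z = dY (dD u) z - dD u z / 2 := rfl
    have h2 : dD u z = dY u z - u z / 2 := rfl
    have h3 : dY (dD u) z = 1 * dY (dY u) z + (-(1 / 2)) * dY u z := by
      have h4 : dD u = fun z => 1 * dY u z + (-(1 / 2)) * u z := by
        funext z
        unfold dD
        ring
      rw [h4]
      exact UZE_dY_lin hS.dY hS 1 (-(1 / 2)) z
    have h5 : f z = lap u z - μ * u z := by rw [hf]
    rw [h1, h3, h2, h5, hXX]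
    show _ = 1 * ((-1) * dX (dX u) z + (-1) * (-dX (dX u) z - dY (dY u) z + dY u z - μ * u z)) + (-(μ - 1 / 4)) * u z
    ring
  -- identities
  have e1 : ∀ z, dX v z = -hav (deriv ψ) u z := fun z => UZE_hX hHV2 hψ hS z
  have e2 : dD v = fun z => 1 * hav ψ (dD u) z + (-1) * hav (eu ψ) u z := by
    funext z
    exact UZE_hD hHV2 hψ hS z
  have e3 : ∀ z, dX (dD v) z = (-1) * hav (deriv ψ) (dD u) z + 1 * hav (deriv (eu ψ)) u z := by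
    intro z
    rw [e2, UZE_dX_lin (hav_S ψ hψ _ hS.dD) (hav_S _ hθ₁ _ hS), UZE_hX hHV2 hψ hS.dD, UZE_hX hHV2 hθ₁ hS]
    ring
  have e4 : ∀ z, dD (dD v) z + R * v z = 1 * ((-1) * hav (deriv (deriv ψ)) u z + (-1) * hav ψ f z) +
      1 * ((-2) * hav (eu ψ) (dD u) z + 1 * hav (eu (eu ψ)) u z) := by
    intro z
    rw [e2, UZE_dD_lin (hav_S ψ hψ _ hS.dD) (hav_S _ hθ₁ _ hS), UZE_hD hHV2 hψ hS.dD, UZE_hD hHV2 hθ₁ hS]
    have h1 : hav ψ (dD (dD u)) z = 1 * ((-1) * hav (deriv (deriv ψ)) u z + (-1) * hav ψ f z) + (-R) * hav ψ u z := by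
      rw [hDD, UZE_hlin hψ ((hS.dX.dX.cmul _).add (hfS.cmul _)).cont hS.cont, UZE_hlin hψ hS.dX.dX.cont hfS.cont,
        UZE_hX2 hHV2 hψ hS.dX, UZE_hX2 hHV2 hψ' hS]
      ring
    rw [h1]
    show _ + R * hav ψ u z = _
    ring
  -- bounds
  have b1 : (∫ z : ℍ, hav (deriv ψ) u z ^ 2) ≤ C1 * κ * A ∧ (∫ z : ℍ, hav (deriv ψ) (dD u) z ^ 2) ≤ C1 * A := by
    rw [hκ, hA]
    exact (F1 u μ hμ hu hus).1 iψ'
  have b2 : (∫ z : ℍ, hav (deriv (deriv ψ)) u z ^ 2) ≤ C2 * κ * A := by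
    rw [hκ, hA]
    exact ((F2 u μ hμ hu hus).1 iψ'').1
  have b3 : (∫ z : ℍ, hav (eu ψ) (dD u) z ^ 2) ≤ C3 * A := by
    rw [hA]
    exact ((F3 u μ hμ hu hus).1 iθ₁).2
  have b4 : (∫ z : ℍ, hav (deriv (eu ψ)) u z ^ 2) ≤ C4 * κ * A := by
    rw [hκ, hA]
    exact ((F4 u μ hμ hu hus).1 iθ₁').1
  have b5 : (∫ z : ℍ, hav (eu (eu ψ)) u z ^ 2) ≤ C5 * κ * A := by
    rw [hκ, hA]
    exact ((F5 u μ hμ hu hus).1 iθ₂).1
  have b6 : (∫ z : ℍ, (u z - hav ψ u z) ^ 2) ≤ C6 * κ * A := by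
    rw [hκ, hA]
    exact (F6 u μ hμ hu hus).2 hψ1
  have b7 : (∫ z : ℍ, hav ψ f z ^ 2) ≤ M * ∫ z : ℍ, f z ^ 2 := by
    rw [hM]
    exact hHAL ψ f hψ hfS.cont hfS.2
  have b8 : (∫ z : ℍ, hav ψ (dD u) z ^ 2) ≤ M * ∫ z : ℍ, dD u z ^ 2 := by
    rw [hM]
    exact hHAL ψ (dD u) hψ hS.dD.cont hS.dD.2
  have b9 : (∫ z : ℍ, hav (eu ψ) u z ^ 2) ≤ M₁ * ∫ z : ℍ, u z ^ 2 := by
    rw [hM₁]
    exact hHAL (eu ψ) u hθ₁ hS.cont hS.2
  have b10 : (∫ z : ℍ, hav ψ u z ^ 2) ≤ M * ∫ z : ℍ, u z ^ 2 := by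
    rw [hM]
    exact hHAL ψ u hψ hS.cont hS.2
  have hND2 : ND ^ 2 = ∫ z : ℍ, dD u z ^ 2 := Real.sq_sqrt (integral_nonneg fun z => sq_nonneg _)
  have hNf2 : Nf ^ 2 = ∫ z : ℍ, f z ^ 2 := by
    rw [hf]
    exact Real.sq_sqrt (integral_nonneg fun z => sq_nonneg _)
  have hU0 : 0 ≤ ∫ z : ℍ, u z ^ 2 := integral_nonneg fun z => sq_nonneg _
  have hD0 : 0 ≤ ∫ z : ℍ, dD u z ^ 2 := integral_nonneg fun z => sq_nonneg _
  have hf0 : 0 ≤ ∫ z : ℍ, f z ^ 2 := integral_nonneg fun z => sq_nonneg _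
  rw [← hκ, ← hA]
  obtain ⟨U, hU⟩ : ∃ U : ℝ, U = ∫ z : ℍ, u z ^ 2 := ⟨_, rfl⟩
  rw [← hU] at b9 b10 hU0 ⊢
  rw [← hND2] at b8 hD0
  rw [← hNf2] at b7 hf0
  have k2 : C2 * κ * A ≤ C2 * A := by
    rw [mul_assoc]
    exact mul_le_mul_of_nonneg_left hκA hC2
  have k4 : C4 * κ * A ≤ C4 * A := by
    rw [mul_assoc]
    exact mul_le_mul_of_nonneg_left hκA hC4
  have k5 : C5 * κ * A ≤ C5 * A := by
    rw [mul_assoc]
    exact mul_le_mul_of_nonneg_left hκA hC5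
  have nn : ∀ {a b : ℝ}, 0 ≤ a → 0 ≤ b → 0 ≤ a * b := fun ha hb => mul_nonneg ha hb
  refine ⟨hvS.1, hvS.2, ?_, ?_, ?_, ?_, ?_, ?_⟩
  · refine b6.trans ?_
    rw [mul_assoc, mul_assoc]
    refine mul_le_mul_of_nonneg_right ?_ hκA0
    linarith
  · have h1 : (∫ z : ℍ, dX v z ^ 2) = ∫ z : ℍ, hav (deriv ψ) u z ^ 2 := by
      refine integral_congr_ae (Filter.Eventually.of_forall fun z => ?_)
      beta_reduce
      rw [e1]
      ring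
    rw [h1]
    refine b1.1.trans ?_
    rw [mul_assoc, mul_assoc]
    refine mul_le_mul_of_nonneg_right ?_ hκA0
    linarith
  · have h1 : (∫ z : ℍ, dX (dD v) z ^ 2) =
        ∫ z : ℍ, ((-1) * hav (deriv ψ) (dD u) z + 1 * hav (deriv (eu ψ)) u z) ^ 2 := by
      refine integral_congr_ae (Filter.Eventually.of_forall fun z => ?_)
      beta_reduce
      rw [e3]
    have h2 := UZE_N2 (hav_S _ hψ' _ hS.dD) (hav_S _ hθ₁' _ hS) (-1) 1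
    rw [h1]
    refine h2.trans ?_
    have h3 : 2 * (-1 : ℝ) ^ 2 * (∫ z : ℍ, hav (deriv ψ) (dD u) z ^ 2) + 2 * 1 ^ 2 * ∫ z : ℍ, hav (deriv (eu ψ)) u z ^ 2 ≤
        (2 * C1 + 2 * C4) * A := by
      have := b1.2
      linarith
    refine h3.trans (mul_le_mul_of_nonneg_right ?_ hA0)
    linarith
  · have h1 : (∫ z : ℍ, (dD (dD v) z + R * v z) ^ 2) =
        ∫ z : ℍ, (1 * ((-1) * hav (deriv (deriv ψ)) u z + (-1) * hav ψ f z) +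
      1 * ((-2) * hav (eu ψ) (dD u) z + 1 * hav (eu (eu ψ)) u z)) ^ 2 := by
      refine integral_congr_ae (Filter.Eventually.of_forall fun z => ?_)
      beta_reduce
      rw [e4]
    have s1 := hav_S _ hψ'' _ hS
    have s2 := hav_S _ hψ _ hfS
    have s3 := hav_S _ hθ₁ _ hS.dD
    have s4 := hav_S _ hθ₂ _ hS
    have h2 := UZE_N2 ((s1.cmul (-1)).add (s2.cmul (-1))) ((s3.cmul (-2)).add (s4.cmul 1)) 1 1
    have h3 := UZE_N2 s1 s2 (-1) (-1)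
    have h4 := UZE_N2 s3 s4 (-2) 1
    rw [h1]
    refine h2.trans ?_
    have h5 : (C6 + 3 * C1 + 4 * C2 + 16 * C3 + 2 * C4 + 4 * C5 + 7 * M + 2 * M₁) * (Nf ^ 2 + A) =
        (4 * M * Nf ^ 2 + (4 * C2 + 16 * C3 + 4 * C5) * A) +
        ((C6 + 3 * C1 + 4 * C2 + 16 * C3 + 2 * C4 + 4 * C5 + 3 * M + 2 * M₁) * Nf ^ 2 +
          (C6 + 3 * C1 + 2 * C4 + 7 * M + 2 * M₁) * A) := by ring
    have h6 : 0 ≤ (C6 + 3 * C1 + 4 * C2 + 16 * C3 + 2 * C4 + 4 * C5 + 3 * M + 2 * M₁) * Nf ^ 2 +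
          (C6 + 3 * C1 + 2 * C4 + 7 * M + 2 * M₁) * A := by positivity
    rw [h5]
    linarith
  · rw [e2]
    have h2 := UZE_N2 (hav_S _ hψ _ hS.dD) (hav_S _ hθ₁ _ hS) 1 (-1)
    refine h2.trans ?_
    have h5 : (C6 + 3 * C1 + 4 * C2 + 16 * C3 + 2 * C4 + 4 * C5 + 7 * M + 2 * M₁) * (ND ^ 2 + U) =
        (2 * M * ND ^ 2 + 2 * M₁ * U) +
        ((C6 + 3 * C1 + 4 * C2 + 16 * C3 + 2 * C4 + 4 * C5 + 5 * M + 2 * M₁) * ND ^ 2 +
          (C6 + 3 * C1 + 4 * C2 + 16 * C3 + 2 * C4 + 4 * C5 + 7 * M) * U) := by ring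
    have h6 : 0 ≤ (C6 + 3 * C1 + 4 * C2 + 16 * C3 + 2 * C4 + 4 * C5 + 5 * M + 2 * M₁) * ND ^ 2 +
          (C6 + 3 * C1 + 4 * C2 + 16 * C3 + 2 * C4 + 4 * C5 + 7 * M) * U := by positivity
    rw [h5]
    linarith
  · refine b10.trans (mul_le_mul_of_nonneg_right ?_ hU0)
    linarith

end Pool.Agent.QX
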